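import Pool.Agent.V7H32.DO.Defs

/-!
# Counting places above prime numbers
-/

set_option autoImplicit false

open NumberField IsDedekindDomain Filter

namespace Pool.Agent.V7H32.DO

open Pool.Agent.V7H32.UO

section places

variable {K : NF}

lemma absNorm_p (K : NF) (p : ℕ) :
    Ideal.absNorm (Ideal.span {((p : ℕ) : 𝓞 K.F)}) = p ^ Module.finrank ℚ K.F := by
  rw [Ideal.absNorm_span_singleton]
  have := Algebra.norm_algebraMap (S := 𝓞 K.F) (p : ℤ)
  rw [RingOfIntegers.rank] at this
  simp only [eq_intCast, Int.cast_natCast] at this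
  rw [this]
  simp [Int.natAbs_pow]

lemma norm_ne_zero (v : K.Place) : norm v ≠ 0 := by
  intro h
  exact v.ne_bot (Ideal.absNorm_eq_zero_iff.1 h)

/-- The prime number divides the norm of a place above it. -/
lemma norm_eq_pow {p : ℕ} (hp : p.Prime) {v : K.Place} (hv : K.Over p v) :
    ∃ k : ℕ, norm v = p ^ (k + 1) := by
  have h1 : norm v ∣ p ^ Module.finrank ℚ K.F := by
    rw [← absNorm_p]
    exact Ideal.absNorm_dvd_absNorm_of_le ((Ideal.span_singleton_le_iff_mem _).2 hv)
  obtain ⟨k, -, hk⟩ := (Nat.dvd_prime_pow hp).1 h1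
  cases k with
  | zero =>
    exfalso
    exact v.isPrime.ne_top (Ideal.absNorm_eq_one_iff.1 (by simpa [norm] using hk))
  | succ k => exact ⟨k, hk⟩

lemma prod_dvd (p : ℕ) (s : Finset K.Place) (hs : ∀ v ∈ s, K.Over p v) :
    ∏ v ∈ s, norm v ∣ p ^ Module.finrank ℚ K.F := by
  classical
  have h1 : ∏ I ∈ s.image fun v => v.asIdeal, I ∣ Ideal.span {((p : ℕ) : 𝓞 K.F)} := by
    refine Finset.prod_primes_dvd _ ?_ ?_
    · intro I hI
      obtain ⟨v, -, rfl⟩ := Finset.mem_image.1 hI
      exact v.prime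
    · intro I hI
      obtain ⟨v, hv, rfl⟩ := Finset.mem_image.1 hI
      rw [Ideal.dvd_iff_le, Ideal.span_singleton_le_iff_mem]
      exact hs v hv
  rw [Finset.prod_image (fun v _ w _ h => HeightOneSpectrum.ext h)] at h1
  have h2 := map_dvd Ideal.absNorm h1
  rw [absNorm_p, map_prod] at h2
  exact h2

lemma card_le {p : ℕ} (hp : p.Prime) (s : Finset K.Place) (hs : ∀ v ∈ s, K.Over p v) :
    s.card ≤ Module.finrank ℚ K.F := by
  have h1 : p ^ s.card ∣ p ^ Module.finrank ℚ K.F := by
    refine dvd_trans ?_ (prod_dvd p s hs)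
    rw [← Finset.prod_const]
    refine Finset.prod_dvd_prod_of_dvd _ _ fun v hv => ?_
    obtain ⟨k, hk⟩ := norm_eq_pow hp (hs v hv)
    rw [hk]
    exact dvd_pow_self p (Nat.succ_ne_zero k)
  exact (Nat.pow_dvd_pow_iff_le_right hp.one_lt).1 h1

lemma finite_over (K : NF) {p : ℕ} (hp : p.Prime) : {v : K.Place | K.Over p v}.Finite := by
  by_contra h
  obtain ⟨s, hs, hc⟩ := Set.Infinite.exists_subset_card_eq h (Module.finrank ℚ K.F + 1)
  have := card_le hp s fun v hv => hs hv
  omega

lemma ncard_over_le (K : NF) {p : ℕ} (hp : p.Prime) :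
    {v : K.Place | K.Over p v}.ncard ≤ Module.finrank ℚ K.F := by
  rw [Set.ncard_eq_toFinset_card _ (finite_over K hp)]
  exact card_le hp _ fun v hv => by simpa using hv

/-- If `p` splits completely then the places above `p` have the norm `p`. -/
lemma norm_of_splits {p : ℕ} (hp : p.Prime) (h : SplitsCompletely p K) {v : K.Place}
    (hv : K.Over p v) : norm v = p := by
  classical
  obtain ⟨k, hk⟩ := norm_eq_pow hp hv
  have hf := finite_over K hp
  have h1 : hf.toFinset.card = Module.finrank ℚ K.F := by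
    rw [← Set.ncard_eq_toFinset_card _ hf]
    exact h
  have hv' : v ∈ hf.toFinset := by simpa using hv
  have h2 := prod_dvd p hf.toFinset fun v hv => by simpa using hv
  rw [← Finset.mul_prod_erase _ _ hv'] at h2
  have h3 : p ^ (k + 1) * p ^ (hf.toFinset.erase v).card ∣ p ^ Module.finrank ℚ K.F := by
    refine dvd_trans ?_ h2
    rw [hk, ← Finset.prod_const]
    refine mul_dvd_mul_left _ (Finset.prod_dvd_prod_of_dvd _ _ fun w hw => ?_)
    obtain ⟨j, hj⟩ := norm_eq_pow hp (v := w) (by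
      have := Finset.mem_of_mem_erase hw
      simpa using this)
    rw [hj]
    exact dvd_pow_self p (Nat.succ_ne_zero j)
  rw [← pow_add, Nat.pow_dvd_pow_iff_le_right hp.one_lt, Finset.card_erase_of_mem hv', h1] at h3
  have h4 : 0 < Module.finrank ℚ K.F := Module.finrank_pos
  have h5 : k = 0 := by omega
  rw [hk, h5]
  simp

/-- A place of degree one of a subfield. -/
lemma exists_degree_one {K L : NF} (f : K.F →+* L.F) {p : ℕ} (hp : p.Prime)
    (h : SplitsCompletely p L) : ∃ v : K.Place, K.Over p v ∧ norm v = p := by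
  obtain ⟨w, hw⟩ := exists_above L hp
  have hwn := norm_of_splits hp h hw
  let g : 𝓞 K.F →+* 𝓞 L.F := RingOfIntegers.mapRingHom f
  have hm : ((p : ℕ) : 𝓞 K.F) ∈ w.asIdeal.comap g := by
    rw [Ideal.mem_comap, map_natCast]
    exact hw
  have hprime : (w.asIdeal.comap g).IsPrime := by
    have := w.isPrime
    exact Ideal.comap_isPrime g _
  have hne : w.asIdeal.comap g ≠ ⊥ := by
    intro h'
    rw [h', Ideal.mem_bot] at hm
    exact hp.ne_zero (Nat.cast_eq_zero.1 hm)
  let v : K.Place := ⟨w.asIdeal.comap g, hprime, hne⟩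
  refine ⟨v, hm, ?_⟩
  obtain ⟨k, hk⟩ := norm_eq_pow hp (v := v) hm
  have hfin : Finite (𝓞 L.F ⧸ w.asIdeal) := Ideal.finiteQuotientOfFreeOfNeBot _ w.ne_bot
  have h1 : norm v ≤ norm w := by
    unfold norm
    rw [Ideal.absNorm_apply, Ideal.absNorm_apply, Submodule.cardQuot_apply,
      Submodule.cardQuot_apply]
    exact Nat.card_le_card_of_injective (Ideal.quotientMap w.asIdeal g le_rfl)
      (Ideal.quotientMap_injective' le_rfl)
  rw [hwn, hk] at h1
  have h2 : p ^ (k + 1) ≤ p ^ 1 := by simpa using h1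
  have h3 := (Nat.pow_le_pow_iff_right hp.one_lt).1 h2
  have h4 : k = 0 := by omega
  rw [hk, h4]
  simp

lemma le_norm {p : ℕ} (hp : p.Prime) {v : K.Place} (hv : K.Over p v) : p ≤ norm v := by
  obtain ⟨k, hk⟩ := norm_eq_pow hp hv
  rw [hk]
  exact Nat.le_self_pow (Nat.succ_ne_zero k) p

lemma finite_prime (S : Set ℕ) (x : ℕ) : {p | p ∈ S ∧ p.Prime ∧ p ≤ x}.Finite :=
  (Set.finite_Iic x).subset fun _ hp => hp.2.2

lemma subset_over (K : NF) (x : ℕ) : {v : K.Place | v ∈ Set.univ ∧ norm v ≤ x} ⊆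
    ⋃ p ∈ {p : ℕ | p ∈ Set.univ ∧ p.Prime ∧ p ≤ x}, {v : K.Place | K.Over p v} := by
  intro v hv
  obtain ⟨p, hp, hpv⟩ := exists_over K v
  exact Set.mem_biUnion (x := p) ⟨trivial, hp, (le_norm hp hpv).trans hv.2⟩ hpv

lemma finite_count (K : NF) (S : Set K.Place) (x : ℕ) : {v | v ∈ S ∧ norm v ≤ x}.Finite := by
  have h : {v | v ∈ S ∧ norm v ≤ x} ⊆ {v : K.Place | v ∈ Set.univ ∧ norm v ≤ x} :=
    fun v hv => ⟨trivial, hv.2⟩
  refine Set.Finite.subset ?_ (h.trans (subset_over K x))
  exact (finite_prime _ x).biUnion fun p hp => finite_over K hp.2.1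

/-- The number of all places. -/
lemma count_univ_le (K : NF) (x : ℕ) :
    count K Set.univ x ≤ Module.finrank ℚ K.F * primeCount Set.univ x := by
  classical
  unfold count primeCount
  have hf := finite_prime Set.univ x
  have h1 : (⋃ p ∈ {p : ℕ | p ∈ Set.univ ∧ p.Prime ∧ p ≤ x}, {v : K.Place | K.Over p v}) =
      ⋃ p ∈ hf.toFinset, {v : K.Place | K.Over p v} := by
    ext v
    simp
  have h2 := subset_over K x
  rw [h1] at h2
  refine (Set.ncard_le_ncard h2 ?_).trans ?_
  · refine Set.Finite.biUnion (Finset.finite_toSet _) fun p hp => ?_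
    have : p ∈ {p : ℕ | p ∈ Set.univ ∧ p.Prime ∧ p ≤ x} := by simpa using hp
    exact finite_over K this.2.1
  · rw [Set.ncard_eq_toFinset_card _ hf, mul_comm, ← smul_eq_mul, ← Finset.sum_const]
    refine (Finset.set_ncard_biUnion_le _ _).trans (Finset.sum_le_sum fun p hp => ?_)
    have : p ∈ {p : ℕ | p ∈ Set.univ ∧ p.Prime ∧ p ≤ x} := by simpa using hp
    exact ncard_over_le K this.2.1

/-- Places of degree one. -/
lemma primeCount_le_count {S : Set ℕ} {R : Set K.Place}
    (h : ∀ p ∈ S, p.Prime → ∃ v ∈ R, K.Over p v ∧ norm v = p) (x : ℕ) :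
    primeCount S x ≤ count K R x := by
  unfold primeCount count
  obtain ⟨v₀, -⟩ := exists_above K Nat.prime_two
  have : Nonempty K.Place := ⟨v₀⟩
  choose! f hf using h
  refine Set.ncard_le_ncard_of_injOn f ?_ ?_ (finite_count K R x)
  · intro p hp
    have h1 := hf p hp.1 hp.2.1
    exact ⟨h1.1, by rw [h1.2.2]; exact hp.2.2⟩
  · intro p hp q hq hpq
    have h1 := (hf p hp.1 hp.2.1).2.2
    have h2 := (hf q hq.1 hq.2.1).2.2
    rw [← h1, ← h2, hpq]

end places

/-- The prime number `p` has the norm `p`. -/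
lemma norm_rat {p : ℕ} (hp : p.Prime) {v : NF.rat.Place} (hv : NF.rat.Over p v) :
    norm v = p := by
  refine norm_of_splits hp ?_ hv
  unfold SplitsCompletely
  have h1 : {v : NF.rat.Place | NF.rat.Over p v} = {v} := by
    ext w
    exact ⟨fun hw => rat_unique hp hw hv, fun hw => by rw [Set.mem_singleton_iff.1 hw]; exact hv⟩
  rw [h1, Set.ncard_singleton]
  exact (Module.finrank_self ℚ).symm

lemma count_rat {S : Set ℕ} {R : Set NF.rat.Place}
    (h : ∀ p, p.Prime → ∀ v, NF.rat.Over p v → (v ∈ R ↔ p ∈ S)) (x : ℕ) :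
    count NF.rat R x = primeCount S x := by
  refine le_antisymm ?_ (primeCount_le_count (fun p hpS hp => ?_) x)
  · unfold primeCount count
    refine Set.ncard_le_ncard_of_injOn norm ?_ ?_ (finite_prime S x)
    · intro v hv
      obtain ⟨p, hp, hpv⟩ := exists_over NF.rat v
      have h1 := norm_rat hp hpv
      rw [h1]
      refine ⟨(h p hp v hpv).1 hv.1, hp, ?_⟩
      rw [← h1]
      exact hv.2
    · intro v _ w _ hvw
      obtain ⟨p, hp, hpv⟩ := exists_over NF.rat v
      obtain ⟨q, hq, hqw⟩ := exists_over NF.rat w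
      rw [norm_rat hp hpv, norm_rat hq hqw] at hvw
      subst hvw
      exact rat_unique hp hpv hqw
  · obtain ⟨v, hv⟩ := exists_above NF.rat hp
    exact ⟨v, (h p hp v hv).2 hpS, hv, norm_rat hp hv⟩

lemma positiveDensity_rat {S : Set ℕ} {R : Set NF.rat.Place}
    (h : ∀ p, p.Prime → ∀ v, NF.rat.Over p v → (v ∈ R ↔ p ∈ S)) :
    PositiveDensity NF.rat R ↔ S ∈ PositiveLowerDensity := by
  have h1 : ∀ x, count NF.rat Set.univ x = primeCount Set.univ x := fun x =>
    count_rat (fun p _ v _ => ⟨fun _ => trivial, fun _ => trivial⟩) x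
  unfold PositiveDensity PositiveLowerDensity
  simp only [h1, count_rat h, Set.mem_ofPred_eq]

lemma primeCount_mono {A B : Set ℕ} (h : A ⊆ B) (x : ℕ) : primeCount A x ≤ primeCount B x :=
  Set.ncard_le_ncard (fun _ hp => ⟨h hp.1, hp.2⟩) (finite_prime B x)

/-- There are many prime numbers. -/
lemma eventually_le_primeCount (M : ℕ) : ∀ᶠ x : ℕ in atTop, M ≤ primeCount Set.univ x := by
  obtain ⟨t, ht, hc⟩ := Set.Infinite.exists_subset_card_eq Nat.infinite_setOfPred_prime M
  filter_upwards [eventually_ge_atTop (t.sup id)] with x hx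
  rw [← hc, ← Set.ncard_coe_finset]
  refine Set.ncard_le_ncard (fun p hp => ⟨trivial, ht hp, ?_⟩) (finite_prime _ x)
  exact (Finset.le_sup (f := id) hp).trans hx

lemma isClass : IsClass PositiveLowerDensity := by
  refine ⟨?_, ?_⟩
  · rintro A B ⟨c, hc, h⟩ hAB
    refine ⟨c, hc, h.mono fun x hx => hx.trans ?_⟩
    exact_mod_cast primeCount_mono hAB x
  · rintro A B ⟨c, hc, h⟩ hB
    refine ⟨c / 2, by positivity, ?_⟩
    obtain ⟨M, hM⟩ := exists_nat_ge (2 * (B.ncard : ℝ) / c)
    filter_upwards [h, eventually_le_primeCount M] with x hx hxM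
    have h1 : primeCount A x ≤ primeCount (A \ B) x + B.ncard := by
      unfold primeCount
      refine (Set.ncard_le_ncard (t := {p | p ∈ A \ B ∧ p.Prime ∧ p ≤ x} ∪ B) ?_
        ((finite_prime _ x).union hB)).trans (Set.ncard_union_le _ _)
      intro p hp
      by_cases hpB : p ∈ B
      · exact Or.inr hpB
      · exact Or.inl ⟨⟨hp.1, hpB⟩, hp.2⟩
    have h2 : (primeCount A x : ℝ) ≤ primeCount (A \ B) x + B.ncard := by exact_mod_cast h1
    have h3 : (M : ℝ) ≤ primeCount Set.univ x := by exact_mod_cast hxM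
    have h4 : (B.ncard : ℝ) ≤ c / 2 * primeCount Set.univ x := by
      have h5 := hM.trans h3
      rw [div_le_iff₀ hc] at h5
      linarith
    linarith

end Pool.Agent.V7H32.DO
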