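import Pool.Agent.V7H32.UO.Main

/-!
# Positive density of the ordinary places: definitions
-/

set_option autoImplicit false

open NumberField IsDedekindDomain Filter

namespace Pool.Agent.V7H32.DO

open Pool.Agent.V7H32.UO

/-- The norm of the place `v`: the number of the elements of the residue field. -/
noncomputable def norm {K : NF} (v : K.Place) : ℕ := Ideal.absNorm v.asIdeal

/-- The number of the places in `S` whose norm is at most `x`. -/
noncomputable def count (K : NF) (S : Set K.Place) (x : ℕ) : ℕ := {v | v ∈ S ∧ norm v ≤ x}.ncard

/-- The set `S` of places of `K` has positive lower density: for some `c > 0` and all large `x` it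
contains at least `c` times all places of norm at most `x`. -/
def PositiveDensity (K : NF) (S : Set K.Place) : Prop :=
  ∃ c : ℝ, 0 < c ∧ ∀ᶠ x : ℕ in atTop, c * (count K Set.univ x : ℝ) ≤ (count K S x : ℝ)

/-- The number of the prime numbers in `S` which are at most `x`. -/
noncomputable def primeCount (S : Set ℕ) (x : ℕ) : ℕ := {p | p ∈ S ∧ p.Prime ∧ p ≤ x}.ncard

/-- The sets of natural numbers which contain, for some `c > 0` and all large `x`, at least `c` times
all prime numbers up to `x`. -/
def PositiveLowerDensity : Set (Set ℕ) :=
  {S | ∃ c : ℝ, 0 < c ∧ ∀ᶠ x : ℕ in atTop,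
    c * (primeCount Set.univ x : ℝ) ≤ (primeCount S x : ℝ)}

/-- A class of large sets of natural numbers: with a set it contains all larger ones and those which
arise from it if finitely many elements are removed. Examples: infinite sets, sets which contain
infinitely many prime numbers, sets `S` for which the sum of `1/p`, `p` a prime number in `S`,
diverges, positive lower density, positive upper density. -/
structure IsClass (F : Set (Set ℕ)) : Prop where
  mono : ∀ A B : Set ℕ, A ∈ F → A ⊆ B → B ∈ F
  finite : ∀ A B : Set ℕ, A ∈ F → B.Finite → A \ B ∈ F

variable (T : Slopes)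

/-- **Q1 over the field `K`**: for every smooth projective variety `X` over `K` of dimension `d` the
set of the places at which `X` has good reduction and is ordinary (the Newton and the Hodge polygon of
`H^n(X)` agree for all `n ≤ 2 d`) has positive lower density. -/
def OrdinaryDensity (K : NF) : Prop :=
  ∀ (X : ProjVar K.F) (d : ℕ), X.IsSmooth d →
    PositiveDensity K {v | GoodReduction X v ∧ ∀ n ≤ 2 * d, T.IsOrdinary X n v}

/-- For every smooth projective variety `X` of even dimension `d` over the field of rational numbers the
prime numbers at which `X` has good reduction and the cohomology in the middle degree is ordinary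
form a set in the class `F`. -/
def MiddleIn (F : Set (Set ℕ)) : Prop :=
  ∀ (X : ProjVar NF.rat.F) (d : ℕ), Even d → X.IsSmooth d →
    {p : ℕ | p.Prime ∧ (∀ v : NF.rat.Place, NF.rat.Over p v → GoodReduction X v) ∧
      T.OrdinaryAbove X d p} ∈ F

/-- For every hypersurface `X` (possibly singular) of even dimension `d` over the field of rational
numbers the prime numbers which are ordinary for the intersection cohomology in the middle degree
form a set in the class `F`. -/
def HypersurfacesIn (F : Set (Set ℕ)) : Prop :=
  ∀ (X : ProjVar NF.rat.F) (d : ℕ), Even d → X.IsHypersurface d →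
    {p : ℕ | p.Prime ∧ T.OrdinaryAbove X d p} ∈ F

/-- For all finite families of projective varieties `X i` (possibly singular) over number fields
`K i` and degrees `n i` and for every CM field `L`, the prime numbers `p` which split completely in `L`
such that for every `i` all places of `K i` above `p` are ordinary for the intersection cohomology in
degree `n i` of `X i` form a set in the class `F`. -/
def CommonIn (F : Set (Set ℕ)) : Prop :=
  ∀ (m : ℕ) (K : Fin m → NF) (X : ∀ i, ProjVar (K i).F) (n : Fin m → ℕ) (L : NF), IsCMField L.F →
    {p : ℕ | p.Prime ∧ SplitsCompletely p L ∧ ∀ i, T.OrdinaryAbove (X i) (n i) p} ∈ F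

/-- **Further known facts**, used for one degree. -/
structure KnownDegree : Prop where
  /-- Lefschetz: for `n ≥ 1` and every smooth projective variety `X` the cohomology `H^n(X)` is a direct
  summand of `H^n(Y)` for a smooth projective variety `Y` of dimension `n` (an iterated hyperplane
  section of `X`, by the theorems of Bertini and Lefschetz, or the product of `X` and a projective
  space if the dimension of `X` is less than `n`) -/
  lefschetz : ∀ n : ℕ, 1 ≤ n → ∀ (X : ProjVar NF.rat.F) (d : ℕ), X.IsSmooth d →
    ∃ Y : ProjVar NF.rat.F, Y.IsSmooth n ∧ AlmostAll fun p => ∀ v : NF.rat.Place,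
      NF.rat.Over p v → T.IsSummand X v Y v n
  /-- Shimura-Taniyama, as in `Slopes.Known`, with the degree: for every CM field `L` there is an
  abelian variety `A` of positive dimension with complex multiplication such that `p` splits
  completely in `L` if `H^1(A)` is ordinary at the places above `p` -/
  multiplication : ∀ L : NF, IsCMField L.F → ∃ (K : NF) (A : ProjVar K.F) (d : ℕ), A.IsSmooth d ∧
    T.hodge A 1 ≠ 0 ∧ AlmostAll fun p => T.OrdinaryAbove A 1 p → SplitsCompletely p L

/-- For every smooth projective variety `X` over `K` the set of the places at which `X` has good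
reduction and `H^n(X)` is ordinary has positive lower density. As `H^1(X)` is the one of the Albanese
variety, for `n = 1` this is Q1 for the abelian varieties over `K`. -/
def DegreeDensity (n : ℕ) (K : NF) : Prop :=
  ∀ (X : ProjVar K.F) (d : ℕ), X.IsSmooth d →
    PositiveDensity K {v | GoodReduction X v ∧ T.IsOrdinary X n v}

/-- For every smooth projective variety `Y` of dimension `n` over the field of rational numbers the
prime numbers at which `Y` has good reduction and `H^n(Y)` is ordinary form a set in the class `F`.
For `n = 1` these `Y` are the curves. -/
def DegreeIn (n : ℕ) (F : Set (Set ℕ)) : Prop :=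
  ∀ Y : ProjVar NF.rat.F, Y.IsSmooth n →
    {p : ℕ | p.Prime ∧ (∀ v : NF.rat.Place, NF.rat.Over p v → GoodReduction Y v) ∧
      T.OrdinaryAbove Y n p} ∈ F

/-- As in `CommonIn`, for the intersection cohomology in degree `n`. -/
def CommonDegreeIn (n : ℕ) (F : Set (Set ℕ)) : Prop :=
  ∀ (m : ℕ) (K : Fin m → NF) (X : ∀ i, ProjVar (K i).F) (L : NF), IsCMField L.F →
    {p : ℕ | p.Prime ∧ SplitsCompletely p L ∧ ∀ i, T.OrdinaryAbove (X i) n p} ∈ F

end Pool.Agent.V7H32.DO
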