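import Pool.Agent.V7H32.DO.Main

/-!
# The theorem for one degree: curves, surfaces, ...
-/

set_option autoImplicit false

open NumberField IsDedekindDomain Filter

namespace Pool.Agent.V7H32.DO

open Pool.Agent.V7H32.UO

variable {T : Slopes}

lemma tens_zero_right (A : Multiset ℚ) : tens A {0} = A := by
  unfold tens
  simp only [Multiset.map_singleton, add_zero]
  rw [Multiset.bind_singleton]
  exact Multiset.map_id' A

lemma tens_zero_left (A : Multiset ℚ) : tens {0} A = A := by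
  unfold tens
  rw [Multiset.singleton_bind]
  simp only [zero_add]
  exact Multiset.map_id' A

/-- Descent in one degree. -/
lemma descend_degree (hT : T.Known) {n : ℕ} (hn : 1 ≤ n) {K : NF} (X : ProjVar K.F) :
    ∃ (Y : ProjVar NF.rat.F) (d : ℕ), Y.IsSmooth d ∧
      AlmostAll fun p => T.OrdinaryAbove Y n p → T.OrdinaryAbove X n p := by
  obtain ⟨Y, d, hY, h⟩ := hT.decomposition K X
  obtain ⟨R, e, hR, h'⟩ := hT.restriction K Y d hY
  refine ⟨R, e, hR, ((h n).and (h' n hn)).mono ?_⟩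
  rintro p hp ⟨h1, h2⟩ h3 v hv
  obtain ⟨w, hw⟩ := exists_above NF.rat hp
  exact Summand.eq (h1 v hv) (Summand.eq (h2 v hv w hw) (h3 w hw))

/-- Two smooth varieties in one degree. -/
lemma pair_degree (hT : T.Known) (n : ℕ) {X Y : ProjVar NF.rat.F} {d e : ℕ} (hX : X.IsSmooth d)
    (hY : Y.IsSmooth e) :
    ∃ Z : ProjVar NF.rat.F, Z.IsSmooth (d + e) ∧ AlmostAll fun p => T.OrdinaryAbove Z n p →
        T.OrdinaryAbove X n p ∧ T.OrdinaryAbove Y n p := by
  obtain ⟨Z, hZ, h⟩ := hT.kunneth X Y d e hX hY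
  refine ⟨Z, hZ, ((hT.good _ X d hX).and (hT.good _ Y e hY)).mono ?_⟩
  rintro p hp ⟨h1, h2⟩ h4
  refine ⟨fun v hv => ?_, fun v hv => ?_⟩
  · have h5 := h v (h1 v hv) (h2 v hv) n 0
    unfold Slopes.IsProduct at h5
    rw [(hT.zero _ Y e hY).1, (hT.zero _ Y e hY).2 v (h2 v hv), tens_zero_right,
      tens_zero_right] at h5
    exact Summand.eq h5 (h4 v hv)
  · have h5 := h v (h1 v hv) (h2 v hv) 0 n
    unfold Slopes.IsProduct at h5
    rw [(hT.zero _ X d hX).1, (hT.zero _ X d hX).2 v (h1 v hv), tens_zero_left,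
      tens_zero_left, Nat.zero_add] at h5
    exact Summand.eq h5 (h4 v hv)

/-- Finite families in one degree. -/
lemma family_degree (hT : T.Known) {n : ℕ} (hn : 1 ≤ n) (m : ℕ) : ∀ (K : Fin m → NF)
    (X : ∀ i, ProjVar (K i).F), ∃ (Z : ProjVar NF.rat.F) (e : ℕ), Z.IsSmooth e ∧
      AlmostAll fun p => T.OrdinaryAbove Z n p → ∀ i, T.OrdinaryAbove (X i) n p := by
  induction m with
  | zero =>
    intro K X
    obtain ⟨P, hP, -⟩ := hT.line
    exact ⟨P, 1, hP, almostAll_of fun p _ _ i => i.elim0⟩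
  | succ m ih =>
    intro K X
    obtain ⟨Z, e, hZ, h1⟩ := ih (fun i => K i.succ) fun i => X i.succ
    obtain ⟨Y, d, hY, h2⟩ := descend_degree hT hn (X 0)
    obtain ⟨W, hW, h3⟩ := pair_degree hT n hZ hY
    refine ⟨W, e + d, hW, ((h1.and h2).and h3).mono ?_⟩
    rintro p _ ⟨⟨h4, h5⟩, h6⟩ h7 i
    obtain ⟨h8, h9⟩ := h6 h7
    refine Fin.cases (motive := fun i => T.OrdinaryAbove (X i) n p) (h5 h9) (fun i => h4 h8 i) i

/-- A variety which forces complete splitting in a CM field. -/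
lemma multiplication_degree (hT : T.Known) (hD : KnownDegree T) {L : NF} (hL : IsCMField L.F) :
    ∀ k : ℕ, ∃ (Z : ProjVar NF.rat.F) (e : ℕ), Z.IsSmooth e ∧ T.hodge Z (k + 1) ≠ 0 ∧
      AlmostAll fun p => T.OrdinaryAbove Z (k + 1) p → SplitsCompletely p L := by
  obtain ⟨K, A, d, hA, hA0, hAp⟩ := hD.multiplication L hL
  obtain ⟨R, e, hR, h⟩ := hT.restriction K A d hA
  have hR0 : T.hodge R 1 ≠ 0 := by
    obtain ⟨p, hp, h1⟩ := Slopes.exists_prime_of (h 1 le_rfl)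
    obtain ⟨v, hv⟩ := exists_above K hp
    obtain ⟨w, hw⟩ := exists_above NF.rat hp
    exact (h1 v hv w hw).ne_zero hA0
  intro k
  induction k with
  | zero =>
    refine ⟨R, e, hR, hR0, ((h 1 le_rfl).and hAp).mono ?_⟩
    rintro p hp ⟨h1, h2⟩ h3
    refine h2 fun v hv => ?_
    obtain ⟨w, hw⟩ := exists_above NF.rat hp
    exact Summand.eq (h1 v hv w hw) (h3 w hw)
  | succ k ih =>
    obtain ⟨Z, c, hZ, hZ0, hZp⟩ := ih
    obtain ⟨W, hW, hW0, hWp⟩ := Slopes.pair hT hZ hR (k + 1) 1 hZ0 hR0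
    exact ⟨W, c + e, hW, hW0, (hZp.and hWp).mono fun p _ h1 h2 => h1.1 (h1.2 h2).1⟩

lemma commonDegree_of (hT : T.Known) (hD : KnownDegree T) {F : Set (Set ℕ)} (hF : IsClass F)
    {n : ℕ} (hn : 1 ≤ n) (h : DegreeIn T n F) : CommonDegreeIn T n F := by
  intro m K X L hL
  obtain ⟨Z, e, hZ, h1⟩ := family_degree hT hn m K X
  obtain ⟨M, c, hM, -, h2⟩ := multiplication_degree hT hD hL (n - 1)
  rw [Nat.sub_add_cancel hn] at h2
  obtain ⟨W, hW, h3⟩ := pair_degree hT n hZ hM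
  obtain ⟨Y, hY, h4⟩ := hD.lefschetz n hn W (e + c) hW
  have h5 : {p : ℕ | p.Prime ∧ T.OrdinaryAbove Y n p} ∈ F :=
    hF.mono _ _ (h Y hY) fun p hp => ⟨hp.1, hp.2.2⟩
  refine mem_of_almostAll hF h5 ((((h1.and h2).and h3).and h4).mono ?_)
  rintro p hp ⟨⟨⟨h6, h7⟩, h8⟩, h9⟩ h10
  have h11 : T.OrdinaryAbove W n p := fun v hv => Summand.eq (h9 v hv) (h10 v hv)
  obtain ⟨h12, h13⟩ := h8 h11
  exact ⟨h7 h13, h6 h12⟩

lemma oneDegree_of {F : Set (Set ℕ)} (hF : IsClass F) {n : ℕ} (h : CommonDegreeIn T n F)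
    {L₀ : NF} (hL₀ : IsCMField L₀.F) {K : NF} (X : ProjVar K.F) :
    {p : ℕ | p.Prime ∧ T.OrdinaryAbove X n p} ∈ F := by
  refine hF.mono _ _ (h 1 (fun _ => K) (fun _ => X) L₀ hL₀) ?_
  rintro p ⟨hp, -, h2⟩
  exact ⟨hp, h2 0⟩

lemma degreeIn_of (hT : T.Known) {F : Set (Set ℕ)} (hF : IsClass F) {n : ℕ}
    (h : CommonDegreeIn T n F) {L₀ : NF} (hL₀ : IsCMField L₀.F) : DegreeIn T n F := by
  intro Y hY
  refine mem_of_almostAll hF (oneDegree_of hF h hL₀ Y) ((hT.good _ Y n hY).mono ?_)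
  exact fun p _ h1 h2 => ⟨h1, h2⟩

lemma degreeDensity_of (hT : T.Known) {n : ℕ} (h : CommonDegreeIn T n PositiveLowerDensity)
    {K L : NF} (hL : IsCMField L.F) (f : K.F →+* L.F) : DegreeDensity T n K := by
  intro X d hX
  have h1 := h 1 (fun _ => K) (fun _ => X) L hL
  have h2 : {p : ℕ | p.Prime ∧ (SplitsCompletely p L ∧
      (∀ v : K.Place, K.Over p v → GoodReduction X v) ∧ T.OrdinaryAbove X n p)} ∈
      PositiveLowerDensity := by
    refine mem_of_almostAll isClass h1 ((hT.good _ X d hX).mono ?_)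
    rintro p _ h2 ⟨h3, h4⟩
    exact ⟨h3, h2, h4 0⟩
  exact positiveDensity_of f h2 (fun p hp _ => hp.2.1)
    fun p hp v hv => ⟨hp.2.2.1 v hv, hp.2.2.2 v hv⟩

lemma degreeIn_of_density {n : ℕ} (h : DegreeDensity T n NF.rat) :
    DegreeIn T n PositiveLowerDensity := by
  intro X hX
  refine (positiveDensity_rat (fun p hp v hv => ?_)).1 (h X n hX)
  constructor
  · rintro ⟨h2, h3⟩
    refine ⟨hp, fun w hw => ?_, fun w hw => ?_⟩
    · rw [rat_unique hp hw hv]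
      exact h2
    · rw [rat_unique hp hw hv]
      exact h3
  · rintro ⟨-, h2, h3⟩
    exact ⟨h2 v hv, h3 v hv⟩

/-- The theorem for one degree. -/
theorem main_degree (hT : T.Known) (hD : KnownDegree T) (n : ℕ) (hn : 1 ≤ n) :
    (∀ F : Set (Set ℕ), IsClass F → (DegreeIn T n F ↔ CommonDegreeIn T n F)) ∧
    (DegreeIn T n PositiveLowerDensity ↔
      ∀ K L : NF, IsCMField L.F → Nonempty (K.F →+* L.F) → DegreeDensity T n K) := by
  obtain ⟨L₀, hL₀⟩ := exists_cm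
  refine ⟨fun F hF => ⟨commonDegree_of hT hD hF hn, fun h => degreeIn_of hT hF h hL₀⟩,
    ⟨fun h K L hL hf => ?_, fun h => ?_⟩⟩
  · obtain ⟨f⟩ := hf
    exact degreeDensity_of hT (commonDegree_of hT hD isClass hn h) hL f
  · exact degreeIn_of_density (h NF.rat L₀ hL₀ ⟨(algebraMap ℚ L₀.F : NF.rat.F →+* L₀.F)⟩)

end Pool.Agent.V7H32.DO
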