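import Pool.Agent.V7H32.DO.Arith

/-!
# The reduction to hypersurfaces over the field of rational numbers
-/

set_option autoImplicit false

open NumberField IsDedekindDomain Filter

namespace Pool.Agent.V7H32.DO

open Pool.Agent.V7H32.UO

variable {T : Slopes}

/-- One smooth variety over the field of rational numbers for a finite family. -/
lemma family (hT : T.Known) (P : ℕ → Prop) (hP : ∀ e, P e ∨ P (e + 1)) (m : ℕ) (K : Fin m → NF)
    (X : ∀ i, ProjVar (K i).F) (n : Fin m → ℕ) :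
    ∃ (Z : ProjVar NF.rat.F) (e : ℕ), P e ∧ Z.IsSmooth e ∧ T.hodge Z e ≠ 0 ∧
      AlmostAll fun p => T.OrdinaryAbove Z e p → ∀ i, T.OrdinaryAbove (X i) (n i) p := by
  choose Y d j hY hd using fun i : Fin m => Slopes.descend hT (X i) (n i)
  obtain ⟨P₁, hP₁, -⟩ := hT.line
  let Y' : ℕ → ProjVar NF.rat.F := fun k => if h : k < m then Y ⟨k, h⟩ else P₁
  let d' : ℕ → ℕ := fun k => if h : k < m then d ⟨k, h⟩ else 1
  let j' : ℕ → ℕ := fun k => if h : k < m then j ⟨k, h⟩ else 0
  have hY' : ∀ k, (Y' k).IsSmooth (d' k) := by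
    intro k
    by_cases h : k < m
    · simp only [Y', d', dif_pos h]
      exact hY _
    · simp only [Y', d', dif_neg h]
      exact hP₁
  obtain ⟨Z, c, r, hZ, h0, h1⟩ := Slopes.finitely_many hT Y' d' j' hY' m
  obtain ⟨Z', c', hc', hZ', h0', h2⟩ := Slopes.to_middle' hT P hP Z c r hZ h0
  refine ⟨Z', c', hc', hZ', h0', ?_⟩
  have h3 : AlmostAll fun p => ∀ i : Fin m,
      (T.OrdinaryAbove (Y i) (j i) p → T.OrdinaryAbove (X i) (n i) p) := by
    have : {p : ℕ | p.Prime ∧ ¬ ∀ i : Fin m,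
        (T.OrdinaryAbove (Y i) (j i) p → T.OrdinaryAbove (X i) (n i) p)} ⊆
        ⋃ i : Fin m, {p : ℕ | p.Prime ∧
          ¬ (T.OrdinaryAbove (Y i) (j i) p → T.OrdinaryAbove (X i) (n i) p)} := by
      rintro p ⟨hp, hpn⟩
      rw [not_forall] at hpn
      obtain ⟨i, hi⟩ := hpn
      exact Set.mem_iUnion.2 ⟨i, hp, hi⟩
    exact (Set.finite_iUnion fun i => hd i).subset this
  refine ((h1.and h2).and h3).mono ?_
  rintro p hp ⟨⟨h4, h5⟩, h6⟩ h7 i
  have h8 := h4 (h5 h7) i.1 i.2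
  simp only [Y', j', dif_pos i.2] at h8
  exact h6 i h8

/-- A class contains a set if it contains a set which is, up to finitely many elements, smaller. -/
lemma mem_of_almostAll {F : Set (Set ℕ)} (hF : IsClass F) {A B : ℕ → Prop}
    (hA : {p : ℕ | p.Prime ∧ A p} ∈ F) (h : AlmostAll fun p => A p → B p) :
    {p : ℕ | p.Prime ∧ B p} ∈ F := by
  refine hF.mono _ _ (hF.finite _ _ hA h) ?_
  rintro p ⟨⟨hp, hpA⟩, hpn⟩
  refine ⟨hp, ?_⟩
  by_contra hB
  exact hpn ⟨hp, fun h' => hB (h' hpA)⟩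

/-- From one variety to finite families, with a CM field. -/
lemma common_of (hT : T.Known) {F : Set (Set ℕ)} (hF : IsClass F) (P : ℕ → Prop)
    (hP : ∀ e, P e ∨ P (e + 1))
    (h : ∀ (Z : ProjVar NF.rat.F) (e : ℕ), P e → Z.IsSmooth e →
      {p : ℕ | p.Prime ∧ T.OrdinaryAbove Z e p} ∈ F) : CommonIn T F := by
  intro m K X n L hL
  obtain ⟨K₀, A, a, hA⟩ := hT.multiplication L hL
  let K' : Fin (m + 1) → NF := Fin.cons K₀ K
  let X' : ∀ i, ProjVar (K' i).F := Fin.cons (α := fun i => ProjVar (K' i).F) A X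
  let n' : Fin (m + 1) → ℕ := Fin.cons a n
  obtain ⟨Z, e, he, hZ, -, h1⟩ := family hT P hP (m + 1) K' X' n'
  refine mem_of_almostAll hF (h Z e he hZ) ((h1.and hA).mono ?_)
  rintro p hp ⟨h2, h3⟩ h4
  have h5 := h2 h4
  exact ⟨h3 (h5 0), fun i => h5 i.succ⟩

lemma common_of_middle (hT : T.Known) {F : Set (Set ℕ)} (hF : IsClass F) (h : MiddleIn T F) :
    CommonIn T F := by
  refine common_of hT hF (fun e => Even e) Slopes.even_or fun Z e he hZ => ?_
  exact hF.mono _ _ (h Z e he hZ) fun p hp => ⟨hp.1, hp.2.2⟩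

lemma common_of_hypersurfaces (hT : T.Known) {F : Set (Set ℕ)} (hF : IsClass F)
    (h : HypersurfacesIn T F) : CommonIn T F := by
  refine common_of hT hF (fun e => Even e) Slopes.even_or fun Z e he hZ => ?_
  obtain ⟨X, hX, hp⟩ := hT.projection Z e hZ
  refine mem_of_almostAll hF (h X e he hX) ((hp e).2.mono ?_)
  intro p _ h1 h2 v hv
  have h3 : T.newton X e v = T.hodge X e := h2 v hv
  rw [h1 v hv, (hp e).1] at h3
  exact h3

variable (L₀ : NF) (hL₀ : IsCMField L₀.F)

include hL₀ in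
/-- One variety. -/
lemma one_of_common {F : Set (Set ℕ)} (hF : IsClass F) (h : CommonIn T F) {K : NF}
    (X : ProjVar K.F) (n : ℕ) : {p : ℕ | p.Prime ∧ T.OrdinaryAbove X n p} ∈ F := by
  refine hF.mono _ _ (h 1 (fun _ => K) (fun _ => X) (fun _ => n) L₀ hL₀) ?_
  rintro p ⟨hp, -, h2⟩
  exact ⟨hp, h2 0⟩

include hL₀ in
lemma middle_of_common (hT : T.Known) {F : Set (Set ℕ)} (hF : IsClass F) (h : CommonIn T F) :
    MiddleIn T F := by
  intro X d _ hX
  refine mem_of_almostAll hF (one_of_common L₀ hL₀ hF h X d) ((hT.good _ X d hX).mono ?_)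
  exact fun p _ h1 h2 => ⟨h1, h2⟩

include hL₀ in
lemma hypersurfaces_of_common {F : Set (Set ℕ)} (hF : IsClass F) (h : CommonIn T F) :
    HypersurfacesIn T F :=
  fun X d _ _ => one_of_common L₀ hL₀ hF h X d

/-- Positive density from prime numbers which split completely. -/
lemma positiveDensity_of {K L : NF} (f : K.F →+* L.F) {S : Set ℕ} (hS : S ∈ PositiveLowerDensity)
    {R : Set K.Place} (h1 : ∀ p ∈ S, p.Prime → SplitsCompletely p L)
    (h2 : ∀ p ∈ S, ∀ v : K.Place, K.Over p v → v ∈ R) : PositiveDensity K R := by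
  obtain ⟨c, hc, h3⟩ := hS
  have hn : 0 < Module.finrank ℚ K.F := Module.finrank_pos
  have hn' : (0 : ℝ) < Module.finrank ℚ K.F := by exact_mod_cast hn
  refine ⟨c / Module.finrank ℚ K.F, by positivity, h3.mono fun x hx => ?_⟩
  have h4 : primeCount S x ≤ count K R x := by
    refine primeCount_le_count (fun p hpS hp => ?_) x
    obtain ⟨v, hv, hvn⟩ := exists_degree_one f hp (h1 p hpS hp)
    exact ⟨v, h2 p hpS v hv, hv, hvn⟩
  have h5 : (count K Set.univ x : ℝ) ≤
      Module.finrank ℚ K.F * primeCount Set.univ x := by exact_mod_cast count_univ_le K x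
  have h6 : (primeCount S x : ℝ) ≤ count K R x := by exact_mod_cast h4
  refine le_trans ?_ (hx.trans h6)
  calc c / Module.finrank ℚ K.F * (count K Set.univ x : ℝ)
      ≤ c / Module.finrank ℚ K.F * (Module.finrank ℚ K.F * primeCount Set.univ x) :=
        mul_le_mul_of_nonneg_left h5 (by positivity)
    _ = c * primeCount Set.univ x := by field_simp

/-- Subfields of CM fields. -/
lemma density_of_common (hT : T.Known) (h : CommonIn T PositiveLowerDensity) {K L : NF}
    (hL : IsCMField L.F) (f : K.F →+* L.F) : OrdinaryDensity T K := by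
  intro X d hX
  have h1 := h (2 * d + 1) (fun _ => K) (fun _ => X) (fun i => i.1) L hL
  have h2 : {p : ℕ | p.Prime ∧ (SplitsCompletely p L ∧
      (∀ v : K.Place, K.Over p v → GoodReduction X v) ∧
      ∀ n ≤ 2 * d, T.OrdinaryAbove X n p)} ∈ PositiveLowerDensity := by
    refine mem_of_almostAll isClass h1 ((hT.good _ X d hX).mono ?_)
    rintro p _ h2 ⟨h3, h4⟩
    exact ⟨h3, h2, fun n hn => h4 ⟨n, by omega⟩⟩
  exact positiveDensity_of f h2 (fun p hp _ => hp.2.1)
    fun p hp v hv => ⟨hp.2.2.1 v hv, fun n hn => hp.2.2.2 n hn v hv⟩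

/-- The field of rational numbers. -/
lemma middle_of_density (h : OrdinaryDensity T NF.rat) : MiddleIn T PositiveLowerDensity := by
  intro X d _ hX
  have h1 := h X d hX
  have h2 : {p : ℕ | p.Prime ∧ (∀ v : NF.rat.Place, NF.rat.Over p v → GoodReduction X v) ∧
      ∀ n ≤ 2 * d, T.OrdinaryAbove X n p} ∈ PositiveLowerDensity := by
    refine (positiveDensity_rat (fun p hp v hv => ?_)).1 h1
    constructor
    · rintro ⟨h2, h3⟩
      refine ⟨hp, fun w hw => ?_, fun n hn w hw => ?_⟩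
      · rw [rat_unique hp hw hv]
        exact h2
      · rw [rat_unique hp hw hv]
        exact h3 n hn
    · rintro ⟨-, h2, h3⟩
      exact ⟨h2 v hv, fun n hn => h3 n hn v hv⟩
  exact isClass.mono _ _ h2 fun p hp => ⟨hp.1, hp.2.1, hp.2.2 d (by omega)⟩

/-- There is a CM field. -/
lemma exists_cm : ∃ L : NF, IsCMField L.F := by
  have h : NumberField (CyclotomicField 3 ℚ) := inferInstance
  have h3 : NeZero ((3 : ℕ) : ℚ) := ⟨by norm_num⟩
  have hc : IsCyclotomicExtension {3} ℚ (CyclotomicField 3 ℚ) :=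
    CyclotomicField.isCyclotomicExtension 3 ℚ
  exact ⟨⟨CyclotomicField 3 ℚ⟩, IsCyclotomicExtension.Rat.isCMField (CyclotomicField 3 ℚ)
    (S := {3}) ⟨3, rfl, by norm_num⟩⟩

/-- The theorem for all degrees. -/
theorem main_all (hT : T.Known) :
    (∀ F : Set (Set ℕ), IsClass F →
      (MiddleIn T F ↔ CommonIn T F) ∧ (HypersurfacesIn T F ↔ CommonIn T F)) ∧
    (OrdinaryDensity T NF.rat ↔ HypersurfacesIn T PositiveLowerDensity) ∧
    (OrdinaryDensity T NF.rat ↔
      ∀ K L : NF, IsCMField L.F → Nonempty (K.F →+* L.F) → OrdinaryDensity T K) := by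
  obtain ⟨L₀, hL₀⟩ := exists_cm
  refine ⟨fun F hF => ⟨⟨common_of_middle hT hF, middle_of_common L₀ hL₀ hT hF⟩,
    ⟨common_of_hypersurfaces hT hF, hypersurfaces_of_common L₀ hL₀ hF⟩⟩, ⟨fun h => ?_, fun h => ?_⟩,
    ⟨fun h K L hL hf => ?_, fun h => ?_⟩⟩
  · exact hypersurfaces_of_common L₀ hL₀ isClass
      (common_of_middle hT isClass (middle_of_density h))
  · exact density_of_common hT (common_of_hypersurfaces hT isClass h) hL₀
      (algebraMap ℚ L₀.F : NF.rat.F →+* L₀.F)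
  · obtain ⟨f⟩ := hf
    exact density_of_common hT (common_of_middle hT isClass (middle_of_density h)) hL f
  · exact h NF.rat L₀ hL₀ ⟨(algebraMap ℚ L₀.F : NF.rat.F →+* L₀.F)⟩

end Pool.Agent.V7H32.DO
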